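import Pool.Agent.Lib.H81.Fi.Main4

/-!
# A left invariant Finsler metric on the group of nonzero quaternions

`G` is the group of nonzero quaternions, which is isomorphic to `ℝ × SU(2)`, and `H` is trivial.
The Lie algebra of `G` is the space of all quaternions with the commutator. The metric is given by
`F (x, y) = √(2 ℓ (x⁻¹ y))`, where `ℓ u` is half of the square of the norm of `u` plus a small
perturbation. The perturbation is invariant under the rotations around `i` on the half space of
the quaternions with positive real part, and invariant under the rotations around `j` on the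
other half space.
-/

set_option autoImplicit false

namespace Pool.Agent.Results.MP_df15e2_gt.QuaternionMetric

open scoped Quaternion RealInnerProductSpace
open Pool.Agent.H81Fi

theorem result :
    -- the group of nonzero quaternions is connected and not compact
    IsConnected {x : ℍ | x ≠ 0} ∧ ¬ IsCompact {x : ℍ | x ≠ 0} ∧
    -- it is quasi-compact: the standard inner product is invariant under the adjoint action
    (∀ g v w : ℍ, g ≠ 0 → ⟪g * v * g⁻¹, g * w * g⁻¹⟫ = ⟪v, w⟫) ∧
    -- its Lie algebra contains an abelian subalgebra of dimension two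
    (∃ A : Submodule ℝ ℍ, Module.finrank ℝ A = 2 ∧ ∀ a ∈ A, ∀ b ∈ A, a * b - b * a = 0) ∧
    -- it carries a left invariant Finsler metric which is non-negatively curved and flag-wise
    -- positively curved
    ∃ F : ℍ → ℍ → ℝ, IsFinsler {x | x ≠ 0} F ∧
      (∀ g x y : ℍ, g ≠ 0 → x ≠ 0 → F (g * x) (g * y) = F x y) ∧
      NonnegCurved {x | x ≠ 0} F ∧ FlagwisePos {x | x ≠ 0} F := by
  refine ⟨?_, ?_, ?_, ?_, ?_⟩
  · apply isConnected_compl_singleton_of_one_lt_rank
    rw [Quaternion.rank_eq_four]
    norm_num
  · intro h
    obtain ⟨R, hR⟩ := h.isBounded.exists_norm_le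
    have h1 : (|R| + 1) • (1 : ℍ) ≠ 0 := smul_ne_zero (by positivity) one_ne_zero
    have h2 := hR _ h1
    rw [norm_smul, norm_one, mul_one, Real.norm_eq_abs, abs_of_pos (by positivity)] at h2
    linarith [le_abs_self R]
  · intro g v w hg
    have hn : ∀ a : ℍ, ‖g * a * g⁻¹‖ = ‖a‖ := fun a => by
      rw [norm_mul, norm_mul, norm_inv]
      have := norm_ne_zero_iff.2 hg
      field_simp
    rw [real_inner_eq_norm_add_mul_self_sub_norm_mul_self_sub_norm_mul_self_div_two,
      real_inner_eq_norm_add_mul_self_sub_norm_mul_self_sub_norm_mul_self_div_two v w,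
      ← add_mul, ← mul_add, hn, hn, hn]
  · refine ⟨Submodule.span ℝ {(1 : ℍ), e1}, ?_, ?_⟩
    · have hli : LinearIndependent ℝ ![(1 : ℍ), e1] := by
        rw [LinearIndependent.pair_iff]
        intro s t hst
        have h1 := congrArg (fun q : ℍ => q.re) hst
        have h2 := congrArg (fun q : ℍ => q.imI) hst
        simp [e1_re, e1_imI] at h1 h2
        exact ⟨h1, h2⟩
      have h1 := finrank_span_eq_card hli
      have h2 : Set.range ![(1 : ℍ), e1] = {(1 : ℍ), e1} := by
        rw [Matrix.range_cons, Matrix.range_cons, Matrix.range_empty, Set.union_empty]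
        rfl
      rw [h2] at h1
      simpa using h1
    · intro a ha b hb
      obtain ⟨p, q, rfl⟩ := Submodule.mem_span_pair.1 ha
      obtain ⟨r, s, rfl⟩ := Submodule.mem_span_pair.1 hb
      simp only [mul_add, add_mul, smul_mul_assoc, mul_smul_comm, mul_one, one_mul]
      module
  · obtain ⟨ε, hε, G1, G2⟩ := exists_good
    refine ⟨Ff ε, isFinsler G1 G2, fun g x y hg _ => ?_, nonnegCurved G1 G2,
      flagwisePos hε G1 G2⟩
    unfold Ff
    rw [mul_inv_rev, mul_assoc, ← mul_assoc g⁻¹, inv_mul_cancel₀ hg, one_mul]

end Pool.Agent.Results.MP_df15e2_gt.QuaternionMetric
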